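import Mathlib

/-!
A right alternative centrally essential ring which is not alternative.

Basis `1, a, b, p, q, c` over a commutative ring `K` with `2 ≠ 0`; the nonzero products of the
basis elements other than `1` are
`a a = p`, `a b = q = - b a`, `p b = b p = c`, `q a = a q = - c`.
Here `(a, a, b) = 2 c`.
-/

set_option autoImplicit false

universe u

namespace Pool.Agent.Results.MP_bbc03c_al.SixDimensional

/-- The associator `(x y) z - x (y z)`. -/
def assoc {R : Type*} [NonAssocRing R] (x y z : R) : R := (x * y) * z - x * (y * z)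

/-- `x` lies in the centre: it associates and commutes with all elements. -/
def IsCentral {R : Type*} [NonAssocRing R] (x : R) : Prop :=
  (∀ a b : R, assoc x a b = 0 ∧ assoc a x b = 0 ∧ assoc a b x = 0) ∧ ∀ a : R, x * a = a * x

/-- The six-dimensional algebra. -/
@[ext]
structure A (K : Type u) where
  /-- coordinate at `1` -/
  o : K
  /-- coordinate at `a` -/
  a : K
  /-- coordinate at `b` -/
  b : K
  /-- coordinate at `p = a a` -/
  p : K
  /-- coordinate at `q = a b` -/
  q : K
  /-- coordinate at `c = p b` -/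
  c : K

namespace A

variable {K : Type u} [CommRing K]

instance : Zero (A K) := ⟨⟨0, 0, 0, 0, 0, 0⟩⟩
instance : One (A K) := ⟨⟨1, 0, 0, 0, 0, 0⟩⟩
instance : Add (A K) :=
  ⟨fun x y => ⟨x.o + y.o, x.a + y.a, x.b + y.b, x.p + y.p, x.q + y.q, x.c + y.c⟩⟩
instance : Neg (A K) := ⟨fun x => ⟨-x.o, -x.a, -x.b, -x.p, -x.q, -x.c⟩⟩
instance : SMul K (A K) :=
  ⟨fun k x => ⟨k * x.o, k * x.a, k * x.b, k * x.p, k * x.q, k * x.c⟩⟩
instance : Mul (A K) :=
  ⟨fun x y => ⟨x.o * y.o, x.o * y.a + x.a * y.o, x.o * y.b + x.b * y.o,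
    x.o * y.p + x.p * y.o + x.a * y.a,
    x.o * y.q + x.q * y.o + x.a * y.b - x.b * y.a,
    x.o * y.c + x.c * y.o + x.p * y.b + x.b * y.p - x.q * y.a - x.a * y.q⟩⟩

lemma zero_def : (0 : A K) = ⟨0, 0, 0, 0, 0, 0⟩ := rfl
lemma one_def : (1 : A K) = ⟨1, 0, 0, 0, 0, 0⟩ := rfl
lemma add_def (x y : A K) :
    x + y = ⟨x.o + y.o, x.a + y.a, x.b + y.b, x.p + y.p, x.q + y.q, x.c + y.c⟩ := rfl
lemma neg_def (x : A K) : -x = ⟨-x.o, -x.a, -x.b, -x.p, -x.q, -x.c⟩ := rfl
lemma smul_def (k : K) (x : A K) :
    k • x = ⟨k * x.o, k * x.a, k * x.b, k * x.p, k * x.q, k * x.c⟩ := rfl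
lemma mul_def (x y : A K) :
    x * y = ⟨x.o * y.o, x.o * y.a + x.a * y.o, x.o * y.b + x.b * y.o,
    x.o * y.p + x.p * y.o + x.a * y.a,
    x.o * y.q + x.q * y.o + x.a * y.b - x.b * y.a,
    x.o * y.c + x.c * y.o + x.p * y.b + x.b * y.p - x.q * y.a - x.a * y.q⟩ := rfl

instance : NonAssocRing (A K) where
  add_assoc x y z := by simp only [add_def]; ext <;> ring
  zero_add x := by simp only [add_def, zero_def]; ext <;> ring
  add_zero x := by simp only [add_def, zero_def]; ext <;> ring
  nsmul := nsmulRec
  zsmul := zsmulRec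
  add_comm x y := by simp only [add_def]; ext <;> ring
  neg_add_cancel x := by simp only [add_def, neg_def, zero_def]; ext <;> ring
  left_distrib x y z := by simp only [add_def, mul_def]; ext <;> ring
  right_distrib x y z := by simp only [add_def, mul_def]; ext <;> ring
  zero_mul x := by simp only [zero_def, mul_def]; ext <;> ring
  mul_zero x := by simp only [zero_def, mul_def]; ext <;> ring
  one_mul x := by simp only [one_def, mul_def]; ext <;> ring
  mul_one x := by simp only [one_def, mul_def]; ext <;> ring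

instance : Module K (A K) where
  one_smul x := by simp only [smul_def]; ext <;> ring
  mul_smul x y z := by simp only [smul_def]; ext <;> ring
  smul_zero x := by simp only [smul_def, zero_def]; ext <;> ring
  smul_add x y z := by simp only [smul_def, add_def]; ext <;> ring
  add_smul x y z := by simp only [smul_def, add_def]; ext <;> ring
  zero_smul x := by simp only [smul_def, zero_def]; ext <;> ring

lemma sub_def (x y : A K) :
    x - y = ⟨x.o - y.o, x.a - y.a, x.b - y.b, x.p - y.p, x.q - y.q, x.c - y.c⟩ := by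
  rw [sub_eq_add_neg, add_def, neg_def]
  ext <;> ring

lemma central_of (x : A K) (h1 : x.a = 0) (h2 : x.b = 0) : IsCentral x := by
  refine ⟨fun y z => ?_, fun y => ?_⟩
  · refine ⟨?_, ?_, ?_⟩ <;>
    · rw [assoc, sub_def, zero_def]
      simp only [mul_def, h1, h2]
      ext <;> ring
  · simp only [mul_def, h1, h2]
    ext <;> ring

end A

/-- For every commutative ring `K` with `2 ≠ 0` there is a unital `K`-algebra `R`, free of rank
six as a `K`-module, which is right alternative, not alternative and centrally essential (so in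
particular left and right `N`-essential). -/
theorem result (K : Type u) [CommRing K] (h2 : (2 : K) ≠ 0) :
    ∃ (R : Type u) (_ : NonAssocRing R) (_ : Module K R),
      (∀ (k : K) (x y : R), (k • x) * y = k • (x * y) ∧ x * (k • y) = k • (x * y)) ∧
      Nonempty (Module.Basis (Fin 6) K R) ∧
      (∀ x y : R, assoc x y y = 0) ∧
      (¬ ∀ x y : R, assoc x x y = 0) ∧
      (∀ r : R, r ≠ 0 → ∃ z : R, IsCentral z ∧ IsCentral (z * r) ∧ z * r ≠ 0) := by
  refine ⟨A K, inferInstance, inferInstance, ?_, ?_, ?_, ?_, ?_⟩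
  · intro k x y
    constructor <;>
    · simp only [A.mul_def, A.smul_def]
      ext <;> ring
  · let e : A K ≃ₗ[K] (Fin 6 → K) :=
      { toFun := fun x => ![x.o, x.a, x.b, x.p, x.q, x.c]
        invFun := fun f => ⟨f 0, f 1, f 2, f 3, f 4, f 5⟩
        map_add' := fun x y => by
          ext i; fin_cases i <;> simp [A.add_def]
        map_smul' := fun k x => by
          ext i; fin_cases i <;> simp [A.smul_def]
        left_inv := fun x => by
          ext <;> simp
        right_inv := fun f => by
          ext i; fin_cases i <;> simp }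
    exact ⟨Module.Basis.ofEquivFun e⟩
  · intro x y
    rw [assoc, A.sub_def, A.zero_def]
    simp only [A.mul_def]
    ext <;> ring
  · intro h
    have h1 := h (⟨0, 1, 0, 0, 0, 0⟩ : A K) ⟨0, 0, 1, 0, 0, 0⟩
    rw [assoc, A.sub_def, A.zero_def] at h1
    have h3 := congrArg A.c h1
    simp only [A.mul_def] at h3
    apply h2
    linear_combination h3
  · intro r hr
    by_cases h : r.o = 0 ∧ r.a = 0 ∧ r.b = 0
    · refine ⟨1, A.central_of _ rfl rfl, ?_, ?_⟩
      · rw [one_mul]
        exact A.central_of _ h.2.1 h.2.2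
      · rwa [one_mul]
    · by_cases hb : r.o = 0 ∧ r.b = 0
      · have ha : r.a ≠ 0 := fun ha => h ⟨hb.1, ha, hb.2⟩
        refine ⟨⟨0, 0, 0, 0, 1, 0⟩, A.central_of _ rfl rfl, A.central_of _ ?_ ?_, ?_⟩
        · simp [A.mul_def]
        · simp [A.mul_def]
        · intro h0
          have := congrArg A.c h0
          simp [A.mul_def, A.zero_def] at this
          exact ha this
      · refine ⟨⟨0, 0, 0, 1, 0, 0⟩, A.central_of _ rfl rfl, A.central_of _ ?_ ?_, ?_⟩
        · simp [A.mul_def]
        · simp [A.mul_def]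
        · intro h0
          have e1 := congrArg A.c h0
          have e2 := congrArg A.p h0
          simp [A.mul_def, A.zero_def] at e1 e2
          exact hb ⟨e2, e1⟩

end Pool.Agent.Results.MP_bbc03c_al.SixDimensional
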